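import Pool.Agent.H60.BD.BMP

/-!
Row BMR of the board bdc_modules: a kernel whose Fourier transform is 1 on `[-1, 1]`.
-/

open MeasureTheory

namespace Pool.Agent.H33.BD

open Pool.Agent.H93.BD

theorem pf_BMR : T_BMR := by
  obtain ⟨ψ, h1, h2, h3, h4⟩ := Pool.Agent.H60.BD.exists_bmp (V := ℝ)
  refine ⟨ψ, h1, h2, fun N => ?_, fun b hb => ?_⟩
  · obtain ⟨C, hC⟩ := h3 N
    exact ⟨C, fun u => by rw [← Real.norm_eq_abs]; exact hC u⟩
  · have h5 := h4 b (by rw [Real.norm_eq_abs]; exact hb)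
    rw [← h5]
    refine integral_congr_ae (Filter.Eventually.of_forall fun u => ?_)
    have h6 : (inner ℝ b u : ℝ) = b * u := by
      simp [mul_comm]
    simp only [h6]

end Pool.Agent.H33.BD
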